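import Pool.Agent.H88.TL.Fal

/-! # [H88 TL FINT] THEOREM TA with finiteness for ALL curves with the leading form of `F` -/

namespace Pool.Agent.H88.TL

open MvPolynomial Pool.Agent.H8.AA Pool.Agent.H8.VX

/-- THEOREM TL: the hand-in -/
theorem fint (n : ℕ) (hn : 4 ≤ n) (B S H : ℕ) (hB : 2 ≤ B) (hS : 1 ≤ S) (hH : 1 ≤ H)
    (F : MvPolynomial (Fin 2) ℤ) (hF : F.totalDegree ≤ n)
    (hirr : Irreducible (map (Int.castRingHom ℚ) (homogeneousComponent n F)))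
    (hFB : ∀ m : Fin 2 →₀ ℕ, m.degree = n → |F.coeff m| ≤ (B : ℤ))
    (hFb : ∀ m : Fin 2 →₀ ℕ, m.degree < n → |F.coeff m| ≤ (S : ℤ) ^ (n - m.degree)) :
    {P : Fin 2 → ℤ | |eval P F| ≤ (H : ℤ)}.Finite ∧
    (({P : Fin 2 → ℤ | |eval P F| ≤ (H : ℤ)}.ncard : ℕ) : ℝ) ≤
      (B : ℝ) ^ (3000 * n ^ 4) * ((S : ℝ) ^ (1 - 1 / (36 * (n : ℝ) ^ 2)) + (H : ℝ) ^ (2 / (n : ℝ)) * (1 + Real.log H)) ∧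
    (({P : Fin 2 → ℤ | |eval P F| ≤ (H : ℤ) ∧
      ((B : ℤ) * S ^ n * H) ^ (700 * n ^ 5) < max |P 0| |P 1|}.ncard : ℕ) : ℝ) ≤ 360 * n ^ 4 * (H : ℝ) ^ (1 / (n : ℝ)) ∧
    (({c : ℤ | |c| ≤ (H : ℤ) ∧ ∃ P : Fin 2 → ℤ, eval P (F + C c) = 0}.ncard : ℕ) : ℝ) ≤
      (B : ℝ) ^ (3000 * n ^ 4) * ((S : ℝ) ^ (1 - 1 / (36 * (n : ℝ) ^ 2)) + (H : ℝ) ^ (2 / (n : ℝ)) * (1 + Real.log H)) ∧
    (({c : ℤ | |c| ≤ (H : ℤ) ∧ ∃ P : Fin 2 → ℤ, eval P (F + C c) = 0 ∧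
      ((B : ℤ) * S ^ n * H) ^ (700 * n ^ 5) < max |P 0| |P 1|}.ncard : ℕ) : ℝ) ≤ 360 * n ^ 4 * (H : ℝ) ^ (1 / (n : ℝ)) ∧
    ((∀ t b c : ℝ,
      (aeval ![Polynomial.X, Polynomial.C t * Polynomial.X + Polynomial.C b] F : Polynomial ℝ) ≠ Polynomial.C c) →
      {c : ℤ | ∃ P : Fin 2 → ℤ, eval P (F + C c) = 0 ∧
        ((B : ℤ) * S ^ n * max 1 |c|) ^ (6000000 * n ^ 5) < max |P 0| |P 1|}.encard ≤ (312 * n ^ 3 : ℕ)) ∧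
    (∀ e : ℕ, e + 4 ≤ n → (∀ t b : ℝ, (if 3 * e + 4 ≤ n then e + 1 else e + 2) ≤
      (aeval ![Polynomial.X, Polynomial.C t * Polynomial.X + Polynomial.C b] F : Polynomial ℝ).natDegree) →
      {q : MvPolynomial (Fin 2) ℤ × (Fin 2 → ℤ) | q.1.totalDegree ≤ e ∧ eval q.2 (F + q.1) = 0 ∧ ∃ h : ℕ, 1 ≤ h ∧
        (∀ m, |q.1.coeff m| ≤ (h : ℤ)) ∧
        ((B : ℤ) * S ^ n * h) ^ (6000000 * n ^ 5) < max |q.2 0| |q.2 1|}.encard ≤ (312 * n ^ 3 : ℕ)) ∧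
    ((∀ t b : ℝ,
      n - 2 ≤ (aeval ![Polynomial.X, Polynomial.C t * Polynomial.X + Polynomial.C b] F : Polynomial ℝ).natDegree) →
      {q : MvPolynomial (Fin 2) ℤ × (Fin 2 → ℤ) | q.1.totalDegree ≤ n - 4 ∧ (∀ m, |q.1.coeff m| ≤ (H : ℤ)) ∧
        eval q.2 (F + q.1) = 0 ∧ ((B : ℤ) * S ^ n * H) ^ (700 * n ^ 5) < max |q.2 0| |q.2 1|}.encard ≤ (80 * n ^ 3 : ℕ)) ∧
    {q : MvPolynomial (Fin 2) ℤ × (Fin 2 → ℤ) | q.1.totalDegree ≤ n - 1 ∧ eval q.2 (F + q.1) = 0 ∧ ∃ h : ℕ, 1 ≤ h ∧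
      (∀ m, |q.1.coeff m| ≤ (h : ℤ)) ∧
      ((B : ℤ) * S ^ n * h) ^ (6000000 * n ^ 5) < max |q.2 0| |q.2 1|}.Finite ∧
    (∃ T : Finset (ℤ × ℤ × ℤ), T.card ≤ 78 * n ^ 3 ∧ (∀ l ∈ T, l.1 ≠ 0 ∨ l.2.1 ≠ 0) ∧
      ∀ (L : MvPolynomial (Fin 2) ℤ) (P : Fin 2 → ℤ) (h : ℕ), L.totalDegree ≤ n - 4 → 1 ≤ h →
        (∀ m, |L.coeff m| ≤ (h : ℤ)) → eval P (F + L) = 0 →
        ((B : ℤ) * S ^ n * h) ^ (6000000 * n ^ 5) < max |P 0| |P 1| →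
        ∃ l ∈ T, l.1 * P 0 + l.2.1 * P 1 = l.2.2) := by
  obtain ⟨h1, h2, h3, h4, h5, h6, h7, h8, -, h10⟩ := Pool.Agent.H99.TA.finm n hn B S H hB hS hH F hF hirr hFB hFb
  exact ⟨h1, h2, h3, h4, h5, h6, h7, h8, fal n hn B S hB hS F hF hirr hFB hFb, h10⟩

end Pool.Agent.H88.TL
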